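import Pool.Agent.Helper70.SK.Stmts3

namespace Pool.Agent.Helper70.SK

open Finset Pool.Agent.Helper70.DK MeasureTheory

theorem tb_mem {k M : ℕ} {x : Fin k → ℤ} : x ∈ gr k M ↔ ∀ c, 0 ≤ x c ∧ x c < (M : ℤ) := by
  unfold gr
  rw [Fintype.mem_piFinset]
  simp only [Finset.mem_Ico]

theorem tb_card (k M : ℕ) : (gr k M).card = M ^ k := by
  unfold gr
  rw [Fintype.card_piFinset]
  simp

theorem tb_cl_cl {k : ℕ} (B a b : ℕ) (x : Fin k → ℤ) : cl B a (cl B b x) = cl B (b + a) x := by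
  funext i
  unfold cl
  rw [Int.ediv_ediv_of_nonneg (by positivity), ← pow_add]

theorem tb_cl_mem {k B a s : ℕ} (hB : 1 ≤ B) {x : Fin k → ℤ} (hx : x ∈ gr k (B ^ (a + s))) :
    cl B s x ∈ gr k (B ^ a) := by
  rw [tb_mem] at hx ⊢
  intro c
  obtain ⟨h1, h2⟩ := hx c
  have hp : (0 : ℤ) < (B : ℤ) ^ s := by positivity
  refine ⟨Int.ediv_nonneg h1 hp.le, ?_⟩
  unfold cl
  refine Int.ediv_lt_of_lt_mul hp ?_
  rw [pow_add] at h2
  push_cast at h2 ⊢
  exact h2

theorem tb_cl_zero {k : ℕ} (B : ℕ) (x : Fin k → ℤ) : cl B 0 x = x := by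
  funext i
  unfold cl
  rw [pow_zero, Int.ediv_one]

/-- the data of a run -/
structure TbD (m B n : ℕ) (X0 : Finset (Fin m → ℤ)) (al : (Fin m → ℤ) → Fin m → ℤ)
    (K Z : ℝ) where
  G : ℕ → St m → Prop
  z : ℕ → St m → ℝ
  A : ℕ → St m → Finset (Fin m → ℤ)
  ch : ℕ → St m → (Fin m → ℤ) → St m
  s0 : St m
  st : ℕ → (Fin m → ℤ) → St m
  kk : ℕ → (Fin m → ℤ) → ℕ
  dg : ℕ → (Fin m → ℤ) → Fin m → ℤ
  θ : ℕ → ℕ → Fin m → ℤ
  hG0 : G 0 s0
  hz0 : z 0 s0 ≤ Z
  hGz : ∀ i ≤ n, ∀ s, G i s → s ∈ Stt B n X0 al i ∧ 0 ≤ z i s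
  hGA : ∀ i < n, ∀ s, G i s → A i s ⊆ gr m B ∧ (A i s).Nonempty ∧ ∀ d ∈ A i s,
    G (i + 1) (ch i s d) ∧ (ch i s d).1 = (fun c => B * s.1 c + d c) ∧
    cl B 1 (ch i s d).2 = s.2 ∧
    (B : ℝ) ^ m * Real.exp (-(2 * (z i s - z (i + 1) (ch i s d)) + 4)) ≤ ((A i s).card : ℝ)
  hst0 : ∀ x, st 0 x = s0
  hrun : ∀ i < n, ∀ x ∈ gr m (B ^ (i + 1)), G i (st i (cl B 1 x)) ∧
    dg i x ∈ A i (st i (cl B 1 x)) ∧ st (i + 1) x = ch i (st i (cl B 1 x)) (dg i x) ∧
    kk i x ≤ ⌈K * 2 ^ m * (B : ℝ) ^ m / ((A i (st i (cl B 1 x))).card : ℝ)⌉₊ ∧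
    (kk i x ≠ 0 → ∀ c, x c - B * (cl B 1 x) c - dg i x c = θ i (kk i x) c)
  hcnt : ∀ i < n, (((gr m (B ^ (i + 1))).filter (fun x => kk i x = 0)).card : ℝ) ≤
    Real.exp (-K) * (B : ℝ) ^ (m * (i + 1))

theorem tb_exists (PRU : ST_PRU) (RUN : ST_RUN) (m B n : ℕ) (C lam0 K : ℝ)
    (X0 : Finset (Fin m → ℤ)) (al : (Fin m → ℤ) → Fin m → ℤ) (hB : 2 ≤ B) (hC : 1 ≤ C)
    (hl : 0 < lam0) (hl1 : lam0 ≤ 1) (hK : 0 < K) (hX0 : X0 ⊆ gr m (B ^ n))
    (hX : lam0 * (B : ℝ) ^ (m * n) ≤ X0.card)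
    (hS : ∀ i ≤ n, ((Stt B n X0 al i).card : ℝ) ≤ C * (B : ℝ) ^ (m * i)) :
    Nonempty (TbD m B n X0 al K ((n + 1) * Real.log (C / lam0) + Real.log (1 / lam0))) := by
  obtain ⟨G, z, A, ch, s0, h1, h2, h3, h4⟩ := PRU m B n C lam0 X0 al hB hC hl hl1 hX0 hX hS
  have hB0 : (0 : ℝ) < B := by
    have : 0 < B := by omega
    exact_mod_cast this
  obtain ⟨st, kk, dg, θ, g1, g2, g3⟩ := RUN m B n ⌈K * 2 ^ m * (B : ℝ) ^ m⌉₊ (St m) G A ch
    (fun i s => ⌈K * 2 ^ m * (B : ℝ) ^ m / ((A i s).card : ℝ)⌉₊) s0 K (by omega) hK h1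
    (by
      intro i hi s hs
      obtain ⟨a1, a2, a3⟩ := h4 i hi s hs
      have hc : (1 : ℝ) ≤ ((A i s).card : ℝ) := by exact_mod_cast a2.card_pos
      have hc0 : (0 : ℝ) < ((A i s).card : ℝ) := by linarith
      refine ⟨a1, a2, Nat.ceil_le_ceil ?_, ?_, fun d hd => (a3 d hd).1⟩
      · exact div_le_self (by positivity) hc
      · have h5 := Nat.le_ceil (K * 2 ^ m * (B : ℝ) ^ m / ((A i s).card : ℝ))
        rwa [div_le_iff₀ hc0] at h5)
  exact ⟨⟨G, z, A, ch, s0, st, kk, dg, θ, h1, h2, h3, h4, g1, g2, g3⟩⟩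

namespace TbD

variable {m B n : ℕ} {X0 : Finset (Fin m → ℤ)} {al : (Fin m → ℤ) → Fin m → ℤ} {K Z : ℝ}

theorem step (D : TbD m B n X0 al K Z) (hB : 1 ≤ B) {x : Fin m → ℤ} (hx : x ∈ gr m (B ^ n))
    {i : ℕ} (hi : i < n) :
    cl B 1 (cl B (n - (i + 1)) x) = cl B (n - i) x ∧ D.G i (D.st i (cl B (n - i) x)) ∧
    D.dg i (cl B (n - (i + 1)) x) ∈ D.A i (D.st i (cl B (n - i) x)) ∧
    D.st (i + 1) (cl B (n - (i + 1)) x) =
      D.ch i (D.st i (cl B (n - i) x)) (D.dg i (cl B (n - (i + 1)) x)) ∧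
    D.kk i (cl B (n - (i + 1)) x) ≤
      ⌈K * 2 ^ m * (B : ℝ) ^ m / ((D.A i (D.st i (cl B (n - i) x))).card : ℝ)⌉₊ ∧
    (D.kk i (cl B (n - (i + 1)) x) ≠ 0 → ∀ c, (cl B (n - (i + 1)) x) c -
      B * (cl B (n - i) x) c - D.dg i (cl B (n - (i + 1)) x) c =
      D.θ i (D.kk i (cl B (n - (i + 1)) x)) c) := by
  have e : cl B 1 (cl B (n - (i + 1)) x) = cl B (n - i) x := by
    rw [tb_cl_cl, show n - (i + 1) + 1 = n - i by omega]
  have hx' : x ∈ gr m (B ^ (i + 1 + (n - (i + 1)))) := by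
    rw [show i + 1 + (n - (i + 1)) = n by omega]
    exact hx
  have h := D.hrun i hi _ (tb_cl_mem hB hx')
  rw [e] at h
  exact ⟨e, h⟩

theorem Gi (D : TbD m B n X0 al K Z) (hB : 1 ≤ B) {x : Fin m → ℤ} (hx : x ∈ gr m (B ^ n))
    {i : ℕ} (hi : i ≤ n) : D.G i (D.st i (cl B (n - i) x)) := by
  cases i with
  | zero =>
    rw [D.hst0]
    exact D.hG0
  | succ k =>
    obtain ⟨_, h1, h2, h3, _⟩ := D.step hB hx (i := k) (by omega)
    rw [h3]
    exact ((D.hGA k (by omega) _ h1).2.2 _ h2).1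

theorem last (D : TbD m B n X0 al K Z) (hB : 1 ≤ B) {x : Fin m → ℤ} (hx : x ∈ gr m (B ^ n)) :
    (D.st n x).1 ∈ X0 ∧ al (D.st n x).1 = (D.st n x).2 := by
  have h := D.Gi hB hx (le_refl n)
  rw [Nat.sub_self, tb_cl_zero] at h
  have h1 := (D.hGz n le_rfl _ h).1
  unfold Stt at h1
  rw [Finset.mem_image] at h1
  obtain ⟨χ, h2, h3⟩ := h1
  rw [Nat.sub_self, tb_cl_zero, tb_cl_zero] at h3
  rw [← h3]
  exact ⟨h2, rfl⟩

theorem pos (D : TbD m B n X0 al K Z) (hB : 1 ≤ B) {x : Fin m → ℤ} (hx : x ∈ gr m (B ^ n)) :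
    ∀ j : ℕ, ∀ i : ℕ, i + j = n →
      cl B (n - i) (al (D.st n x).1) = (D.st i (cl B (n - i) x)).2 := by
  intro j
  induction j with
  | zero =>
    intro i hi
    rw [show n - i = 0 by omega, show i = n by omega, tb_cl_zero, tb_cl_zero]
    exact (D.last hB hx).2
  | succ k ih =>
    intro i hi
    have h := ih (i + 1) (by omega)
    obtain ⟨h0, h1, h2, h3, _⟩ := D.step hB hx (i := i) (by omega)
    have h4 := ((D.hGA i (by omega) _ h1).2.2 _ h2).2.2.1
    rw [← h3, ← h, tb_cl_cl, show n - (i + 1) + 1 = n - i by omega] at h4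
    exact h4

theorem diff (D : TbD m B n X0 al K Z) (hB : 1 ≤ B) (hX0 : X0 ⊆ gr m (B ^ n)) {x : Fin m → ℤ}
    (hx : x ∈ gr m (B ^ n)) (c : Fin m) :
    ∀ i : ℕ, i ≤ n → (cl B (n - i) x) c - (D.st i (cl B (n - i) x)).1 c =
      ∑ j ∈ Finset.range i, ((cl B (n - (j + 1)) x) c - B * (cl B (n - j) x) c -
        D.dg j (cl B (n - (j + 1)) x) c) * (B : ℤ) ^ (i - 1 - j) := by
  have hz : ∀ y ∈ gr m (B ^ n), cl B n y = 0 := by
    intro y hy
    have h := tb_cl_mem (a := 0) (s := n) hB (by rw [Nat.zero_add]; exact hy)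
    rw [tb_mem] at h
    funext c
    have h1 := h c
    rw [pow_zero, Nat.cast_one] at h1
    show cl B n y c = 0
    omega
  intro i
  induction i with
  | zero =>
    intro _
    rw [Finset.sum_range_zero, D.hst0, Nat.sub_zero, hz x hx]
    have h1 := (D.hGz 0 (Nat.zero_le n) _ D.hG0).1
    unfold Stt at h1
    rw [Finset.mem_image] at h1
    obtain ⟨χ, h2, h3⟩ := h1
    rw [← h3, Nat.sub_zero, hz χ (hX0 h2)]
    rfl
  | succ k ih =>
    intro hk
    have h := ih (by omega)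
    obtain ⟨h0, h1, h2, h3, _⟩ := D.step hB hx (i := k) (by omega)
    have h4 := ((D.hGA k (by omega) _ h1).2.2 _ h2).2.1
    rw [← h3] at h4
    have h5 : ∑ j ∈ Finset.range k, ((cl B (n - (j + 1)) x) c - B * (cl B (n - j) x) c -
        D.dg j (cl B (n - (j + 1)) x) c) * (B : ℤ) ^ (k + 1 - 1 - j) =
        B * ∑ j ∈ Finset.range k, ((cl B (n - (j + 1)) x) c - B * (cl B (n - j) x) c -
        D.dg j (cl B (n - (j + 1)) x) c) * (B : ℤ) ^ (k - 1 - j) := by
      rw [Finset.mul_sum]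
      refine Finset.sum_congr rfl fun j hj => ?_
      rw [Finset.mem_range] at hj
      rw [show k + 1 - 1 - j = (k - 1 - j) + 1 by omega, pow_succ]
      ring
    rw [Finset.sum_range_succ, h5, ← h, h4, show k + 1 - 1 - k = 0 by omega, pow_zero]
    ring

theorem dd_lt (D : TbD m B n X0 al K Z) (hB : 1 ≤ B) {x : Fin m → ℤ} (hx : x ∈ gr m (B ^ n))
    {i : ℕ} (hi : i < n) (c : Fin m) : |(cl B (n - (i + 1)) x) c - B * (cl B (n - i) x) c -
        D.dg i (cl B (n - (i + 1)) x) c| < (B : ℤ) := by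
  obtain ⟨h0, h1, h2, h3, _⟩ := D.step hB hx hi
  have h4 := (D.hGA i hi _ h1).1 h2
  rw [tb_mem] at h4
  obtain ⟨h5, h6⟩ := h4 c
  have h7 : (cl B (n - i) x) c = (cl B (n - (i + 1)) x) c / (B : ℤ) := by
    rw [← h0]
    show (cl B (n - (i + 1)) x) c / (B : ℤ) ^ 1 = _
    rw [pow_one]
  rw [h7]
  have hB0 : (0 : ℤ) < B := by exact_mod_cast hB
  have h8 := Int.emod_nonneg ((cl B (n - (i + 1)) x) c) hB0.ne'
  have h9 := Int.emod_lt_of_pos ((cl B (n - (i + 1)) x) c) hB0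
  have h10 := Int.mul_ediv_add_emod ((cl B (n - (i + 1)) x) c) (B : ℤ)
  rw [abs_lt]
  constructor <;> linarith

theorem prod_le (D : TbD m B n X0 al K Z) (hB : 1 ≤ B) (hK : 0 < K) {x : Fin m → ℤ}
    (hx : x ∈ gr m (B ^ n)) : ∀ i : ℕ, i ≤ n →
    ∏ j ∈ Finset.range i, (max (D.kk j (cl B (n - (j + 1)) x)) 1 : ℝ) ≤
      ((K * 2 ^ m + 1) * Real.exp 4) ^ i *
        Real.exp (2 * (D.z 0 D.s0 - D.z i (D.st i (cl B (n - i) x)))) := by
  intro i
  induction i with
  | zero =>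
    intro _
    rw [Finset.prod_range_zero, D.hst0, sub_self, mul_zero, Real.exp_zero, pow_zero, mul_one]
  | succ k ih =>
    intro hk
    have h := ih (by omega)
    obtain ⟨h0, h1, h2, h3, h4, _⟩ := D.step hB hx (i := k) (by omega)
    obtain ⟨g1, g2, g3⟩ := D.hGA k (by omega) _ h1
    obtain ⟨_, _, _, g4⟩ := g3 _ h2
    rw [← h3] at g4
    obtain ⟨s, hs⟩ : ∃ s, s = D.st k (cl B (n - k) x) := ⟨_, rfl⟩
    obtain ⟨s', hs'⟩ : ∃ s', s' = D.st (k + 1) (cl B (n - (k + 1)) x) := ⟨_, rfl⟩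
    rw [← hs] at h1 h4 g1 g2 g4 h
    rw [← hs'] at g4
    rw [← hs']
    have hB0 : (0 : ℝ) < (B : ℝ) ^ m := by
      have : 0 < B := by omega
      positivity
    have hc1 : (1 : ℝ) ≤ ((D.A k s).card : ℝ) := by exact_mod_cast g2.card_pos
    have hc0 : (0 : ℝ) < ((D.A k s).card : ℝ) := by linarith
    have hcB : ((D.A k s).card : ℝ) ≤ (B : ℝ) ^ m := by
      have h5 := Finset.card_le_card g1
      rw [tb_card] at h5
      exact_mod_cast h5
    obtain ⟨E, hE⟩ : ∃ E, E = 2 * (D.z k s - D.z (k + 1) s') + 4 := ⟨_, rfl⟩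
    rw [← hE] at g4
    have hE0 : 0 ≤ E := by
      have h5 : (B : ℝ) ^ m * Real.exp (-E) ≤ (B : ℝ) ^ m * 1 := by
        rw [mul_one]
        exact g4.trans hcB
      have h6 := le_of_mul_le_mul_left h5 hB0
      rw [Real.exp_le_one_iff] at h6
      linarith
    have hE1 : 1 ≤ Real.exp E := Real.one_le_exp hE0
    have h5 : K * 2 ^ m * (B : ℝ) ^ m / ((D.A k s).card : ℝ) ≤ K * 2 ^ m * Real.exp E := by
      rw [div_le_iff₀ hc0]
      have h6 : K * 2 ^ m * Real.exp E * ((B : ℝ) ^ m * Real.exp (-E)) ≤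
          K * 2 ^ m * Real.exp E * ((D.A k s).card : ℝ) :=
        mul_le_mul_of_nonneg_left g4 (by positivity)
      have h7 : K * 2 ^ m * Real.exp E * ((B : ℝ) ^ m * Real.exp (-E)) =
          K * 2 ^ m * (B : ℝ) ^ m := by
        rw [Real.exp_neg]
        have := Real.exp_pos E
        field_simp
      linarith
    have h6 : (D.kk k (cl B (n - (k + 1)) x) : ℝ) ≤ (K * 2 ^ m + 1) * Real.exp E := by
      have h7 : (D.kk k (cl B (n - (k + 1)) x) : ℝ) ≤
          ((⌈K * 2 ^ m * (B : ℝ) ^ m / ((D.A k s).card : ℝ)⌉₊ : ℕ) : ℝ) := by exact_mod_cast h4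
      have h8 := Nat.ceil_lt_add_one (a := K * 2 ^ m * (B : ℝ) ^ m / ((D.A k s).card : ℝ))
        (by positivity)
      linarith
    have h7 : (max (D.kk k (cl B (n - (k + 1)) x)) 1 : ℝ) ≤ (K * 2 ^ m + 1) * Real.exp E := by
      refine max_le h6 ?_
      have h8 : 0 ≤ K * 2 ^ m * Real.exp E := by positivity
      linarith
    rw [Finset.prod_range_succ]
    refine (mul_le_mul h h7 (le_trans zero_le_one (le_max_right _ _)) (by positivity)).trans
      (le_of_eq ?_)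
    have h9 : Real.exp E = Real.exp (2 * (D.z k s - D.z (k + 1) s')) * Real.exp 4 := by
      rw [hE, Real.exp_add]
    have h10 : Real.exp (2 * (D.z 0 D.s0 - D.z (k + 1) s')) =
        Real.exp (2 * (D.z 0 D.s0 - D.z k s)) * Real.exp (2 * (D.z k s - D.z (k + 1) s')) := by
      rw [← Real.exp_add]
      congr 1
      ring
    rw [h9, h10, pow_succ]
    ring

end TbD

/-- fibres of `cl` -/
theorem tb_fib {m B a s : ℕ} (hB : 1 ≤ B) (P : (Fin m → ℤ) → Prop) [DecidablePred P] :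
    ((gr m (B ^ (a + s))).filter (fun x => P (cl B s x))).card ≤
      B ^ (m * s) * ((gr m (B ^ a)).filter P).card := by
  have hp : (0 : ℤ) < (B : ℤ) ^ s := by positivity
  refine (Finset.card_le_mul_card_image_of_maps_to (f := cl B s)
    (t := (gr m (B ^ a)).filter P) ?_ (B ^ (m * s)) ?_)
  · intro x hx
    rw [Finset.mem_filter] at hx ⊢
    exact ⟨tb_cl_mem hB hx.1, hx.2⟩
  · intro y hy
    have h1 : (((gr m (B ^ (a + s))).filter (fun x => P (cl B s x))).filter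
        (fun x => cl B s x = y)).card ≤ (gr m (B ^ s)).card := by
      refine Finset.card_le_card_of_injOn (fun x c => x c - (B : ℤ) ^ s * y c) ?_ ?_
      · intro x hx
        rw [Finset.mem_coe, Finset.mem_filter] at hx
        rw [Finset.mem_coe, tb_mem]
        intro c
        have h2 : y c = x c / (B : ℤ) ^ s := by rw [← hx.2]; rfl
        have h3 := Int.emod_nonneg (x c) hp.ne'
        have h4 := Int.emod_lt_of_pos (x c) hp
        have h5 := Int.mul_ediv_add_emod (x c) ((B : ℤ) ^ s)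
        show 0 ≤ x c - (B : ℤ) ^ s * y c ∧ x c - (B : ℤ) ^ s * y c < ((B ^ s : ℕ) : ℤ)
        rw [h2]
        push_cast
        constructor <;> linarith
      · intro x _ x' _ h
        funext c
        have h2 : x c - (B : ℤ) ^ s * y c = x' c - (B : ℤ) ^ s * y c := congrFun h c
        linarith
    rw [tb_card, ← pow_mul, mul_comm s m] at h1
    exact h1

/-- Markov's inequality -/
theorem tb_markov {m B n : ℕ} {X0 : Finset (Fin m → ℤ)} {al : (Fin m → ℤ) → Fin m → ℤ}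
    {K Z : ℝ} (D : TbD m B n X0 al K Z) (hB : 1 ≤ B) (hn : 1 ≤ n) (β : ℝ) (hβ : 0 < β)
    (hK : Real.exp (-K) ≤ β / 2) :
    1 / 2 * (B : ℝ) ^ (m * n) ≤ (((gr m (B ^ n)).filter (fun x =>
      (((Finset.range n).filter (fun i => D.kk i (cl B (n - (i + 1)) x) = 0)).card : ℝ) ≤
        β * n)).card : ℝ) := by
  have hn0 : (0 : ℝ) < n := by exact_mod_cast hn
  have hB0 : (0 : ℝ) < B := by
    have : 0 < B := by omega
    exact_mod_cast this
  have h1 : ∑ x ∈ gr m (B ^ n),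
      (((Finset.range n).filter (fun i => D.kk i (cl B (n - (i + 1)) x) = 0)).card : ℝ) ≤
      n * (β / 2 * (B : ℝ) ^ (m * n)) := by
    have h2 : ∑ x ∈ gr m (B ^ n),
        (((Finset.range n).filter (fun i => D.kk i (cl B (n - (i + 1)) x) = 0)).card : ℝ) =
        ∑ i ∈ Finset.range n,
          (((gr m (B ^ n)).filter (fun x => D.kk i (cl B (n - (i + 1)) x) = 0)).card : ℝ) := by
      simp only [Finset.card_filter, Nat.cast_sum]
      exact Finset.sum_comm
    rw [h2]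
    have h3 : ∀ i ∈ Finset.range n,
        (((gr m (B ^ n)).filter (fun x => D.kk i (cl B (n - (i + 1)) x) = 0)).card : ℝ) ≤
        β / 2 * (B : ℝ) ^ (m * n) := by
      intro i hi
      rw [Finset.mem_range] at hi
      have h4 := tb_fib (m := m) (B := B) (a := i + 1) (s := n - (i + 1)) hB
        (fun y => D.kk i y = 0)
      rw [show i + 1 + (n - (i + 1)) = n by omega] at h4
      have h5 : (((gr m (B ^ n)).filter (fun x => D.kk i (cl B (n - (i + 1)) x) = 0)).card : ℝ) ≤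
          (B : ℝ) ^ (m * (n - (i + 1))) *
            (((gr m (B ^ (i + 1))).filter (fun y => D.kk i y = 0)).card : ℝ) := by
        exact_mod_cast h4
      refine h5.trans ?_
      have h6 := (D.hcnt i hi).trans (mul_le_mul_of_nonneg_right hK (by positivity))
      refine (mul_le_mul_of_nonneg_left h6 (by positivity)).trans (le_of_eq ?_)
      have h7 : (B : ℝ) ^ (m * n) = (B : ℝ) ^ (m * (n - (i + 1))) * (B : ℝ) ^ (m * (i + 1)) := by
        rw [← pow_add, ← Nat.mul_add, show n - (i + 1) + (i + 1) = n by omega]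
      rw [h7]
      ring
    refine (Finset.sum_le_sum h3).trans (le_of_eq ?_)
    rw [Finset.sum_const, Finset.card_range, nsmul_eq_mul]
  have h2 : β * n * (((gr m (B ^ n)).filter (fun x => ¬
      (((Finset.range n).filter (fun i => D.kk i (cl B (n - (i + 1)) x) = 0)).card : ℝ) ≤
        β * n)).card : ℝ) ≤ n * (β / 2 * (B : ℝ) ^ (m * n)) := by
    refine le_trans ?_ h1
    refine le_trans ?_ (Finset.sum_le_sum_of_subset_of_nonneg (Finset.filter_subset
      (fun x => ¬ (((Finset.range n).filter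
        (fun i => D.kk i (cl B (n - (i + 1)) x) = 0)).card : ℝ) ≤ β * n) _)
      (fun x _ _ => Nat.cast_nonneg _))
    rw [mul_comm, ← nsmul_eq_mul, ← Finset.sum_const]
    refine Finset.sum_le_sum fun x hx => ?_
    rw [Finset.mem_filter] at hx
    exact (not_le.1 hx.2).le
  have h3 := Finset.card_filter_add_card_filter_not (s := gr m (B ^ n)) (fun x =>
      (((Finset.range n).filter (fun i => D.kk i (cl B (n - (i + 1)) x) = 0)).card : ℝ) ≤ β * n)
  rw [tb_card, ← pow_mul, mul_comm n m] at h3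
  have h4 : (((gr m (B ^ n)).filter (fun x =>
      (((Finset.range n).filter (fun i => D.kk i (cl B (n - (i + 1)) x) = 0)).card : ℝ) ≤
        β * n)).card : ℝ) + (((gr m (B ^ n)).filter (fun x => ¬
      (((Finset.range n).filter (fun i => D.kk i (cl B (n - (i + 1)) x) = 0)).card : ℝ) ≤
        β * n)).card : ℝ) = (B : ℝ) ^ (m * n) := by exact_mod_cast h3
  have h5 : (((gr m (B ^ n)).filter (fun x => ¬
      (((Finset.range n).filter (fun i => D.kk i (cl B (n - (i + 1)) x) = 0)).card : ℝ) ≤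
        β * n)).card : ℝ) ≤ 1 / 2 * (B : ℝ) ^ (m * n) := by
    refine le_of_mul_le_mul_left (h2.trans (le_of_eq ?_)) (mul_pos hβ hn0)
    ring
  linarith

theorem st_TB (PRU : ST_PRU) (RUN : ST_RUN) (CODE : ST_CODE) : ST_TB := by
  intro m C lam0 η hm hC hl hl1 hη
  obtain ⟨K, hKdef⟩ : ∃ K : ℝ, K = max (Real.log (8 / η)) 0 + 1 := ⟨_, rfl⟩
  have hK : 0 < K := by
    rw [hKdef]
    have := le_max_right (Real.log (8 / η)) 0
    linarith
  have hKe : Real.exp (-K) ≤ η / 4 / 2 := by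
    have h1 : Real.log (8 / η) ≤ K := by
      rw [hKdef]
      have := le_max_left (Real.log (8 / η)) 0
      linarith
    have h2 : Real.exp (-K) ≤ Real.exp (-Real.log (8 / η)) := Real.exp_le_exp.2 (by linarith)
    rw [Real.exp_neg (Real.log (8 / η)), Real.exp_log (by positivity)] at h2
    refine h2.trans (le_of_eq ?_)
    rw [inv_div]
    ring
  obtain ⟨Y1, hY1⟩ : ∃ Y1 : ℝ, Y1 = (K * 2 ^ m + 1) * Real.exp 4 *
    Real.exp (4 * Real.log (C / lam0) + 2 * Real.log (1 / lam0)) := ⟨_, rfl⟩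
  have hY0 : 0 < Y1 := by rw [hY1]; positivity
  have hmη : 0 < (m : ℝ) * η / 2 := by
    have : (0 : ℝ) < m := by exact_mod_cast hm
    positivity
  have htend := (tendsto_rpow_atTop hmη).comp (tendsto_natCast_atTop_atTop (R := ℝ))
  obtain ⟨B1, hB1⟩ := Filter.eventually_atTop.1 (htend.eventually_ge_atTop (3 * Y1 ^ 2))
  refine ⟨max B1 2, fun B hB n X0 al hX0 hX hS => ?_⟩
  have hB2 : 2 ≤ B := (le_max_right _ _).trans hB
  have hBY : 3 * Y1 ^ 2 ≤ (B : ℝ) ^ ((m : ℝ) * η / 2) := hB1 B ((le_max_left _ _).trans hB)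
  have hB0 : (0 : ℝ) < B := by
    have : 0 < B := by omega
    exact_mod_cast this
  rcases Nat.eq_zero_or_pos n with hn | hn
  · subst hn
    have hne : X0.Nonempty := by
      rw [← Finset.card_pos]
      have h1 : (0 : ℝ) < X0.card := lt_of_lt_of_le (by positivity) hX
      exact_mod_cast h1
    obtain ⟨χ, hχ⟩ := hne
    refine ⟨fun _ => χ, gr m (B ^ 0), fun _ _ => hχ, fun i hi x _ x' _ _ => rfl,
      fun _ h => h, ?_, ?_⟩
    · rw [tb_card]
      simp only [pow_zero, mul_zero, one_pow, Nat.cast_one, mul_one]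
      norm_num
    · have h1 : ((gr m (B ^ 0)).image (fun x c => x c - χ c)).card ≤ 1 := by
        refine Finset.card_image_le.trans ?_
        rw [tb_card, pow_zero, one_pow]
      rw [Nat.cast_zero, mul_zero, Real.rpow_zero]
      exact_mod_cast h1
  obtain ⟨D⟩ := tb_exists PRU RUN m B n C lam0 K X0 al hB2 hC hl hl1 hK hX0 hX hS
  have hB1' : 1 ≤ B := by omega
  refine ⟨fun x => (D.st n x).1, (gr m (B ^ n)).filter (fun x =>
      (((Finset.range n).filter (fun i => D.kk i (cl B (n - (i + 1)) x) = 0)).card : ℝ) ≤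
        η / 4 * n), fun x hx => (D.last hB1' hx).1, ?_, Finset.filter_subset _ _,
    tb_markov D hB1' hn (η / 4) (by positivity) hKe, ?_⟩
  · intro i hi x hx x' hx' hxx
    rw [D.pos hB1' hx (n - i) i (by omega), D.pos hB1' hx' (n - i) i (by omega), hxx]
  · have hlogC : 0 ≤ Real.log (C / lam0) := by
      refine Real.log_nonneg ?_
      rw [le_div_iff₀ hl]
      linarith
    have hlogl : 0 ≤ Real.log (1 / lam0) := by
      refine Real.log_nonneg ?_
      rw [le_div_iff₀ hl]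
      linarith
    have hn1 : (1 : ℝ) ≤ n := by exact_mod_cast hn
    have hprod : ∀ x ∈ (gr m (B ^ n)).filter (fun x =>
      (((Finset.range n).filter (fun i => D.kk i (cl B (n - (i + 1)) x) = 0)).card : ℝ) ≤
        η / 4 * n), ∏ i ∈ Finset.range n, (max (D.kk i (cl B (n - (i + 1)) x)) 1 : ℝ) ≤
        Y1 ^ n := by
      intro x hx
      rw [Finset.mem_filter] at hx
      refine (D.prod_le hB1' hK hx.1 n le_rfl).trans ?_
      have h1 := (D.hGz n le_rfl _ (D.Gi hB1' hx.1 le_rfl)).2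
      have h2 := D.hz0
      rw [hY1, mul_pow ((K * 2 ^ m + 1) * Real.exp 4), ← Real.exp_nat_mul]
      refine mul_le_mul_of_nonneg_left (Real.exp_le_exp.2 ?_) (by positivity)
      have h3 : Real.log (C / lam0) ≤ n * Real.log (C / lam0) :=
        le_mul_of_one_le_left hlogC hn1
      have h4 : Real.log (1 / lam0) ≤ n * Real.log (1 / lam0) :=
        le_mul_of_one_le_left hlogl hn1
      linarith
    have hcode := CODE m B n (Y1 ^ n) (η / 4) (Fin m → ℤ) ((gr m (B ^ n)).filter (fun x =>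
      (((Finset.range n).filter (fun i => D.kk i (cl B (n - (i + 1)) x) = 0)).card : ℝ) ≤
        η / 4 * n)) (fun i x => D.kk i (cl B (n - (i + 1)) x))
      (fun i x c => (cl B (n - (i + 1)) x) c - B * (cl B (n - i) x) c -
        D.dg i (cl B (n - (i + 1)) x) c) D.θ hB2 (by positivity) (by positivity)
      (fun x hx i hi => by
        rw [Finset.mem_filter] at hx
        exact ⟨fun h => funext fun c => (D.step hB1' hx.1 hi).2.2.2.2.2 h c,
          fun c => D.dd_lt hB1' hx.1 hi c⟩) hprod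
      (fun x hx => by
        rw [Finset.mem_filter] at hx
        exact hx.2)
    have himg : ((gr m (B ^ n)).filter (fun x =>
      (((Finset.range n).filter (fun i => D.kk i (cl B (n - (i + 1)) x) = 0)).card : ℝ) ≤
        η / 4 * n)).image (fun x c => x c - (D.st n x).1 c) =
      ((gr m (B ^ n)).filter (fun x =>
      (((Finset.range n).filter (fun i => D.kk i (cl B (n - (i + 1)) x) = 0)).card : ℝ) ≤
        η / 4 * n)).image (fun x c => ∑ i ∈ Finset.range n,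
        ((cl B (n - (i + 1)) x) c - B * (cl B (n - i) x) c -
        D.dg i (cl B (n - (i + 1)) x) c) * (B : ℤ) ^ (n - 1 - i)) := by
      refine Finset.image_congr fun x hx => ?_
      rw [Finset.mem_coe, Finset.mem_filter] at hx
      funext c
      have h1 := D.diff hB1' hX0 hx.1 c n le_rfl
      rw [Nat.sub_self, tb_cl_zero] at h1
      exact h1
    rw [himg]
    refine hcode.trans ?_
    have h1 : (2 * (B : ℝ)) ^ ((m : ℝ) * (η / 4) * n) ≤
        (B : ℝ) ^ ((m : ℝ) * η / 2 * n) := by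
      have h2 : 2 * (B : ℝ) ≤ (B : ℝ) ^ (2 : ℝ) := by
        rw [Real.rpow_two, sq]
        have : (2 : ℝ) ≤ B := by exact_mod_cast hB2
        exact mul_le_mul_of_nonneg_right this hB0.le
      refine (Real.rpow_le_rpow (by positivity) h2 (by positivity)).trans (le_of_eq ?_)
      rw [← Real.rpow_mul hB0.le]
      congr 1
      ring
    have h2 : (Y1 ^ n) ^ 2 * 3 ^ n ≤ (B : ℝ) ^ ((m : ℝ) * η / 2 * n) := by
      have h3 : (Y1 ^ n) ^ 2 * 3 ^ n = (3 * Y1 ^ 2) ^ n := by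
        rw [mul_pow, ← pow_mul, ← pow_mul, mul_comm n 2]
        ring
      rw [h3, Real.rpow_mul hB0.le, Real.rpow_natCast]
      exact pow_le_pow_left₀ (by positivity) hBY n
    refine (mul_le_mul h2 h1 (by positivity) (by positivity)).trans (le_of_eq ?_)
    rw [← Real.rpow_add hB0]
    congr 1
    ring

end Pool.Agent.Helper70.SK
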